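import Pool.Agent.MNT.StmtsT

/-!
# Squad MNT, row HBD: bound of the sum of `l - J`
-/

namespace Pool.Agent.MNT.H35

open Pool.Agent.MNT
open scoped Classical

/-- Row HBD. -/
theorem hbd (lg2 : Lg2Stmt) (lgn : LgnStmt) : HbdStmt := by
  intro g hg V _ _ _ T G a b l s r hl hlab hres
  have h2 := lg2 g hg V T G a b l s r hl hlab hres
  have hn := lgn g hg V T G a b l s r hl hlab hres
  have key : ∀ c ∈ Finset.univ.filter (fun c : V => c ≠ ⊤),
      (if a c = 2 then JJ l s r c - 3 / 4 * l c else 0) +
      (if a c = 2 * g then JJ l s r c - 3 / 4 * l c else 0) ≤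
        ee g (a c) * l c - (l c - JJ l s r c) := by
    intro c hc
    rw [Finset.mem_filter] at hc
    have hc0 : c ≠ ⊤ := hc.2
    have hlc := hl c hc0
    have hJ : 0 ≤ JJ l s r c := by
      unfold JJ
      positivity
    unfold ee
    by_cases hodd : Odd (a c)
    · have hne2 : a c ≠ 2 := by
        intro h
        rw [h] at hodd
        exact absurd hodd (by decide)
      have hneg : a c ≠ 2 * g := by
        intro h
        rw [h] at hodd
        exact (Nat.not_odd_iff_even.2 (even_two_mul g)) hodd
      rw [if_neg hne2, if_neg hneg, if_pos hodd]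
      have hG : G c := by
        by_contra h
        exact (Nat.not_even_iff_odd.2 hodd) (hlab.even c h)
      have hGp : G (T.par c) := by
        by_contra h
        exact (Nat.not_even_iff_odd.2 hodd) (hlab.kids_even _ h c ((T.mem_kids _ _).2 ⟨hc0, rfl⟩))
      have hs := hres.s_grd c hG
      have hr := hres.r_grd c hc0 hGp
      have hJl : JJ l s r c = l c := by
        unfold JJ
        rw [hs, hr]
        field_simp
        ring
      rw [hJl]
      linarith
    · rw [if_neg hodd]
      by_cases h1 : a c = 2
      · have hneg : a c ≠ 2 * g := by omega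
        rw [if_pos h1, if_neg hneg, if_pos (Or.inl h1)]
        linarith
      · by_cases h3 : a c = 2 * g
        · rw [if_neg h1, if_pos h3, if_pos (Or.inr h3)]
          linarith
        · rw [if_neg h1, if_neg h3, if_neg (by tauto)]
          linarith
  have hsum := Finset.sum_le_sum key
  rw [Finset.sum_add_distrib, ← Finset.sum_filter, ← Finset.sum_filter, Finset.filter_filter,
    Finset.filter_filter, Finset.sum_sub_distrib, Finset.sum_sub_distrib, Finset.sum_sub_distrib,
    ← Finset.mul_sum, ← Finset.mul_sum] at hsum
  linarith

end Pool.Agent.MNT.H35
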